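import Pool.Agent.H717.Z987.WienB

/-! `S_wien` (Z-F4-L3 of helper121): the Wiener type theorem. -/

set_option autoImplicit false

open scoped BigOperators InnerProductSpace Topology ENNReal
open Filter MeasureTheory

namespace Pool.Agent.H717.Z987

open Pool.Agent.Y662.TR (LL dv inner_dv ll_sum ll_summable qk_po)
open Pool.Agent.TH369.AN (Rz)
open Pool.Agent.TH369.MU (SpM ep zk qk spm_exists)
open Pool.Agent.H987.Z
open Pool.Agent.H121.Z987
open Pool.Agent.TH794.LL2 (Po)

variable {ι : Type}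

theorem zk_im (E : ℝ) (k : ℕ) : (zk E k).im ≠ 0 := by
  unfold zk
  simp [(ep_pos' k).ne']

theorem spm_Fm (T : LL ι →L[ℂ] LL ι) (φ : LL ι) (m : Measure ℝ) (hm : SpM T φ m) (E : ℝ) (k : ℕ) :
    ⟪φ, Rz T (zk E k) φ⟫_ℂ = Fm m (ep k) E := hm.2 _ (zk_im E k)

theorem pol (T : LL ι →L[ℂ] LL ι) (hT : Rs T) (x y : ι) (mp mn : Measure ℝ)
    (hp : SpM T (dv x + dv y) mp) (hn : SpM T (dv x - dv y) mn) (E : ℝ) (k : ℕ) :
    4 * Gr T (zk E k) x y = Fm mp (ep k) E - Fm mn (ep k) E := by
  rw [← spm_Fm T _ mp hp, ← spm_Fm T _ mn hn]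
  simp only [inner_add_left, inner_sub_left, map_add, map_sub, inner_add_right, inner_sub_right,
    inner_dv]
  have h := Pool.Agent.H304.Z987.Gr_symm T hT (zk E k) x y (zk_im E k)
  unfold Gr at h ⊢
  rw [← h]
  ring

/-- the sum of the squares of the Green function -/
theorem gr_sum (T : LL ι →L[ℂ] LL ι) (hT : IsSelfAdjoint T) (y : ι) (m : Measure ℝ)
    (hm : SpM T (dv y) m) (E : ℝ) (k : ℕ) :
    HasSum (fun x => ep k * ‖Gr T (zk E k) x y‖ ^ 2) (Po m E (ep k)) := by
  rw [← qk_po T hT (dv y) m hm E k]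
  unfold qk
  rw [mul_pow, Real.sq_sqrt (ep_pos' k).le]
  exact (ll_sum (Rz T (zk E k) (dv y))).mul_left (ep k)

theorem gr_meas (T : LL ι →L[ℂ] LL ι) (hT : Rs T) (x y : ι) (k : ℕ) :
    Measurable fun E => ep k * ‖Gr T (zk E k) x y‖ ^ 2 := by
  obtain ⟨mp, hp, -⟩ := spm_exists T hT.sa (dv x + dv y)
  obtain ⟨mn, hn, -⟩ := spm_exists T hT.sa (dv x - dv y)
  haveI := hp.1
  haveI := hn.1
  have h : (fun E => Gr T (zk E k) x y) = fun E => (Fm mp (ep k) E - Fm mn (ep k) E) / 4 := by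
    funext E
    rw [← pol T hT x y mp mn hp hn E k]
    ring
  have h2 : Measurable fun E => Gr T (zk E k) x y := by
    rw [h]
    exact (((Fm_meas mp _ (ep_pos' k)).sub (Fm_meas mn _ (ep_pos' k))).measurable).div_const 4
  exact (h2.norm.pow_const 2).const_mul _

/-- the bound at a point -/
theorem pt_bd (T : LL ι →L[ℂ] LL ι) (hT : Rs T) (y : ι) (m : Measure ℝ) (hm : SpM T (dv y) m)
    (mp mn : ι → Measure ℝ) (hp : ∀ x, SpM T (dv x + dv y) (mp x))
    (hn : ∀ x, SpM T (dv x - dv y) (mn x)) (F : Finset ι) (t : ℝ) :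
    ∑ x ∈ F, ((mp x).real {t} - (mn x).real {t}) ^ 2 / 16 ≤ m.real {t} := by
  haveI := hm.1
  -- the left side
  have h1 : Tendsto (fun k => ∑ x ∈ F, ‖-(Complex.I * (ep k : ℂ)) * Gr T (zk t k) x y‖ ^ 2) atTop
      (𝓝 (∑ x ∈ F, ((mp x).real {t} - (mn x).real {t}) ^ 2 / 16)) := by
    refine tendsto_finsetSum _ fun x _ => ?_
    haveI := (hp x).1
    haveI := (hn x).1
    have e1 := ((Fm_atom (mp x) t).sub (Fm_atom (mn x) t)).div_const 4
    have e2 : ∀ k, (-(Complex.I * (ep k : ℂ)) * Fm (mp x) (ep k) t -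
        -(Complex.I * (ep k : ℂ)) * Fm (mn x) (ep k) t) / 4 =
        -(Complex.I * (ep k : ℂ)) * Gr T (zk t k) x y := by
      intro k
      have := pol T hT x y (mp x) (mn x) (hp x) (hn x) t k
      rw [← mul_sub, ← this]
      ring
    simp_rw [e2] at e1
    have e3 := (e1.norm).pow 2
    convert e3 using 2
    rw [← Complex.ofReal_sub, norm_div, Complex.norm_real, div_pow, Real.norm_eq_abs, sq_abs]
    norm_num
  -- the right side
  have h2 : Tendsto (fun k => (-(Complex.I * (ep k : ℂ)) * Fm m (ep k) t).re) atTop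
      (𝓝 (m.real {t})) := by
    have := (Complex.continuous_re.tendsto _).comp (Fm_atom m t)
    simpa [Function.comp_def] using this
  refine le_of_tendsto_of_tendsto' h1 h2 fun k => ?_
  have hs := gr_sum T hT.sa y m hm t k
  have h3 : ∑ x ∈ F, ep k * ‖Gr T (zk t k) x y‖ ^ 2 ≤ Po m t (ep k) :=
    sum_le_hasSum F (fun x _ => mul_nonneg (ep_pos' k).le (sq_nonneg _)) hs
  have h4 : (-(Complex.I * (ep k : ℂ)) * Fm m (ep k) t).re = ep k * Po m t (ep k) := by
    have h5 : (Fm m (ep k) t).im = Po m t (ep k) :=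
      Pool.Agent.TH794.LL2.Po_im m t (ep k) (ep_pos' k)
    rw [← h5]
    simp [Complex.mul_re]
  rw [h4]
  have h6 : ∀ x, ‖-(Complex.I * (ep k : ℂ)) * Gr T (zk t k) x y‖ ^ 2 =
      ep k * (ep k * ‖Gr T (zk t k) x y‖ ^ 2) := by
    intro x
    rw [norm_mul, norm_neg, norm_mul, Complex.norm_I, one_mul, Complex.norm_real,
      Real.norm_of_nonneg (ep_pos' k).le]
    ring
  simp_rw [h6]
  rw [← Finset.mul_sum]
  exact mul_le_mul_of_nonneg_left h3 (ep_pos' k).le

/-- splitting of the sum -/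
theorem split (T : LL ι →L[ℂ] LL ι) (hT : Rs T) (y : ι) (m : Measure ℝ)
    (hm : SpM T (dv y) m) (F : Finset ι) (k : ℕ) :
    ENNReal.ofReal (∫ E, Po m E (ep k) ∂Q) =
      ENNReal.ofReal (∑ x ∈ F, ∫ E, ep k * ‖Gr T (zk E k) x y‖ ^ 2 ∂Q) + Tl T y F k := by
  haveI := hm.1
  have hnn : ∀ x E, 0 ≤ ep k * ‖Gr T (zk E k) x y‖ ^ 2 :=
    fun x E => mul_nonneg (ep_pos' k).le (sq_nonneg _)
  have hPint := (Po_Q m).1 k
  rw [ofReal_integral_eq_lintegral_ofReal hPint (Eventually.of_forall fun E =>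
    Pool.Agent.Y662.TR.po_nonneg m E (ep k) (ep_pos' k))]
  have hle : ∀ x E, ep k * ‖Gr T (zk E k) x y‖ ^ 2 ≤ Po m E (ep k) := by
    intro x E
    have := sum_le_hasSum {x} (fun x _ => hnn x E) (gr_sum T hT.sa y m hm E k)
    simpa using this
  have hint : ∀ x, Integrable (fun E => ep k * ‖Gr T (zk E k) x y‖ ^ 2) Q := by
    intro x
    refine hPint.mono' (gr_meas T hT x y k).aestronglyMeasurable (Eventually.of_forall fun E => ?_)
    rw [Real.norm_of_nonneg (hnn x E)]
    exact hle x E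
  have h1 : ∀ E, ENNReal.ofReal (Po m E (ep k)) =
      (∑ x ∈ F, ENNReal.ofReal (ep k * ‖Gr T (zk E k) x y‖ ^ 2)) +
        ∑' x : {x : ι // x ∉ F}, ENNReal.ofReal (ep k * ‖Gr T (zk E k) x y‖ ^ 2) := by
    intro E
    have hs := gr_sum T hT.sa y m hm E k
    rw [← hs.tsum_eq, ENNReal.ofReal_tsum_of_nonneg (fun x => hnn x E) hs.summable]
    rw [← ENNReal.summable.tsum_add_tsum_compl (s := (F : Set ι)) ENNReal.summable]
    congr 1
    rw [Finset.tsum_subtype' F (fun x => ENNReal.ofReal (ep k * ‖Gr T (zk E k) x y‖ ^ 2))]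
  rw [lintegral_congr h1, lintegral_add_left (Finset.measurable_sum F fun x _ =>
    (gr_meas T hT x y k).ennreal_ofReal)]
  congr 1
  rw [lintegral_finsetSum F fun x _ => (gr_meas T hT x y k).ennreal_ofReal,
    ENNReal.ofReal_sum_of_nonneg fun x _ => integral_nonneg fun E => hnn x E]
  refine Finset.sum_congr rfl fun x _ => ?_
  rw [ofReal_integral_eq_lintegral_ofReal (hint x) (Eventually.of_forall fun E => hnn x E)]

/-- **L3**, the Wiener type theorem -/
theorem wien : S_wien := by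
  intro ι _ T hT y htight m hm
  haveI := hm.1
  choose mp hp hpu using fun x => spm_exists T hT.sa (dv x + dv y)
  choose mn hn hnu using fun x => spm_exists T hT.sa (dv x - dv y)
  obtain ⟨D, hDdef⟩ : ∃ D : Set ℝ, D = ({t | m {t} ≠ 0} ∪ (⋃ x, {t | mp x {t} ≠ 0})) ∪
      ⋃ x, {t | mn x {t} ≠ 0} := ⟨_, rfl⟩
  have hD : D.Countable := by
    rw [hDdef]
    refine ((fin_atoms m).union (Set.countable_iUnion fun x => ?_)).union
      (Set.countable_iUnion fun x => ?_)
    · haveI := (hp x).1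
      exact fin_atoms (mp x)
    · haveI := (hn x).1
      exact fin_atoms (mn x)
  have hmD : ∀ t, t ∉ D → m {t} = 0 := by
    intro t ht
    by_contra h
    exact ht (by rw [hDdef]; exact Or.inl (Or.inl h))
  have hpD : ∀ x t, t ∉ D → mp x {t} = 0 := by
    intro x t ht
    by_contra h
    exact ht (by rw [hDdef]; exact Or.inl (Or.inr (Set.mem_iUnion.2 ⟨x, h⟩)))
  have hnD : ∀ x t, t ∉ D → mn x {t} = 0 := by
    intro x t ht
    by_contra h
    exact ht (by rw [hDdef]; exact Or.inr (Set.mem_iUnion.2 ⟨x, h⟩))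
  refine ⟨D, hD, ?_⟩
  -- the summable families
  have hwm : Summable fun t : D => wt t * m.real {(t : ℝ)} := by
    have h1 := atoms_summable m (m + Measure.dirac 0) D hD
    haveI := hD.to_subtype
    have hs : Summable fun t : D => m.real {(t : ℝ)} := by
      have hs : (∑' t : D, m {(t : ℝ)}) ≠ ∞ := by
        have := measure_iUnion (μ := m) (f := fun t : D => {(t : ℝ)})
          (fun a b hab => by
            simp only [Function.onFun, Set.disjoint_singleton]
            exact fun h => hab (Subtype.ext h)) (fun t => measurableSet_singleton _)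
        rw [← this]
        exact measure_ne_top _ _
      exact ENNReal.summable_toReal hs
    refine Summable.of_nonneg_of_le (fun t => mul_nonneg (wt_pos _).le measureReal_nonneg)
      (fun t => ?_) hs
    have h2 := wt_le (t : ℝ)
    have h3 : 0 ≤ m.real {(t : ℝ)} := measureReal_nonneg
    nlinarith
  have hwi : Integrable wt m := by
    refine Integrable.of_bound (C := 1) wt_cont.aestronglyMeasurable (Eventually.of_forall fun E => ?_)
    rw [Real.norm_of_nonneg (wt_pos E).le]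
    exact wt_le E
  have hsumD : ∑' t : D, wt t * m.real {(t : ℝ)} = ∫ t in D, wt t ∂m := by
    rw [setIntegral_countable _ hD hwi.integrableOn]
    refine tsum_congr fun t => ?_
    rw [smul_eq_mul]
    ring
  have hdsum : ∀ x, Summable fun t : D => wt t * ((mp x).real {(t : ℝ)} - (mn x).real {(t : ℝ)}) ^ 2 := by
    intro x
    haveI := (hp x).1
    haveI := (hn x).1
    have s1 := atoms_summable (mp x) (mp x) D hD
    have s2 := atoms_summable (mp x) (mn x) D hD
    have s4 := atoms_summable (mn x) (mn x) D hD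
    refine ((s1.sub (s2.mul_left 2)).add s4).congr fun t => ?_
    ring
  -- the main inequality
  have key : ∀ δ : ℝ, 0 < δ → ∫ t, Real.pi * wt t ∂m ≤ Real.pi * (∫ t in D, wt t ∂m) + 2 * δ := by
    intro δ hδ
    obtain ⟨F, hF⟩ := htight (ENNReal.ofReal δ) (ENNReal.ofReal_pos.2 hδ)
    have hlt : liminf (fun k => Tl T y F k) atTop < ENNReal.ofReal (2 * δ) :=
      hF.trans_lt ((ENNReal.ofReal_lt_ofReal_iff (by linarith)).2 (by linarith))
    have hfr := frequently_lt_of_liminf_lt (by isBoundedDefault) hlt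
    have hlim1 := (Po_Q m).2
    have hlim2 : Tendsto (fun k => (∑ x ∈ F, ∫ E, ep k * ‖Gr T (zk E k) x y‖ ^ 2 ∂Q) + 2 * δ) atTop
        (𝓝 ((∑ x ∈ F, 1 / 16 * (Real.pi * ∑' t : D, wt t *
          ((mp x).real {(t : ℝ)} - (mn x).real {(t : ℝ)}) ^ 2)) + 2 * δ)) := by
      refine Tendsto.add_const _ (tendsto_finsetSum _ fun x _ => ?_)
      haveI := (hp x).1
      haveI := (hn x).1
      have e := (diff_lim (mp x) (mn x) D hD (hpD x) (hnD x)).const_mul (1 / 16)
      refine e.congr fun k => ?_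
      rw [← integral_const_mul]
      refine integral_congr_ae (Eventually.of_forall fun E => ?_)
      simp only
      rw [← pol T hT x y (mp x) (mn x) (hp x) (hn x) E k, norm_mul]
      norm_num
      ring
    have hfr2 : ∃ᶠ k in atTop, ∫ E, Po m E (ep k) ∂Q ≤
        (∑ x ∈ F, ∫ E, ep k * ‖Gr T (zk E k) x y‖ ^ 2 ∂Q) + 2 * δ := by
      refine hfr.mono fun k hk => ?_
      have hS : 0 ≤ ∑ x ∈ F, ∫ E, ep k * ‖Gr T (zk E k) x y‖ ^ 2 ∂Q :=
        Finset.sum_nonneg fun x _ => integral_nonneg fun E =>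
          mul_nonneg (ep_pos' k).le (sq_nonneg _)
      have h1 := split T hT y m hm F k
      have h2 : ENNReal.ofReal (∫ E, Po m E (ep k) ∂Q) ≤
          ENNReal.ofReal ((∑ x ∈ F, ∫ E, ep k * ‖Gr T (zk E k) x y‖ ^ 2 ∂Q) + 2 * δ) := by
        rw [h1, ENNReal.ofReal_add hS (by linarith)]
        exact add_le_add le_rfl hk.le
      exact (ENNReal.ofReal_le_ofReal_iff (by linarith)).1 h2
    have hle := le_of_tendsto_of_tendsto_of_frequently hlim1 hlim2 hfr2
    refine hle.trans (add_le_add ?_ le_rfl)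
    rw [← hsumD]
    have e1 : ∑ x ∈ F, 1 / 16 * (Real.pi * ∑' t : D, wt t *
        ((mp x).real {(t : ℝ)} - (mn x).real {(t : ℝ)}) ^ 2) =
        Real.pi * ∑' t : D, ∑ x ∈ F, (1 / 16 * (wt t *
        ((mp x).real {(t : ℝ)} - (mn x).real {(t : ℝ)}) ^ 2)) := by
      rw [Summable.tsum_finsetSum fun x _ => (hdsum x).mul_left (1 / 16), Finset.mul_sum]
      refine Finset.sum_congr rfl fun x _ => ?_
      rw [tsum_mul_left]
      ring
    rw [e1]
    refine mul_le_mul_of_nonneg_left ?_ Real.pi_pos.le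
    refine Summable.tsum_le_tsum (fun t => ?_)
      (summable_sum fun x _ => (hdsum x).mul_left (1 / 16)) hwm
    have := pt_bd T hT y m hm mp mn hp hn F t
    calc ∑ x ∈ F, 1 / 16 * (wt t * ((mp x).real {(t : ℝ)} - (mn x).real {(t : ℝ)}) ^ 2)
        = wt t * ∑ x ∈ F, ((mp x).real {(t : ℝ)} - (mn x).real {(t : ℝ)}) ^ 2 / 16 := by
          rw [Finset.mul_sum]
          refine Finset.sum_congr rfl fun x _ => ?_
          ring
      _ ≤ wt t * m.real {(t : ℝ)} := mul_le_mul_of_nonneg_left this (wt_pos _).le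
  -- conclusion
  have h1 : ∫ t, Real.pi * wt t ∂m ≤ Real.pi * (∫ t in D, wt t ∂m) := by
    refine le_of_forall_pos_le_add fun δ hδ => ?_
    have := key (δ / 2) (by linarith)
    linarith
  rw [integral_const_mul] at h1
  have h2 : ∫ t, wt t ∂m ≤ ∫ t in D, wt t ∂m := le_of_mul_le_mul_left h1 Real.pi_pos
  have h3 := integral_add_compl hD.measurableSet hwi
  have h4 : ∫ t in Dᶜ, wt t ∂m = 0 := by
    refine le_antisymm (by linarith) (integral_nonneg fun t => (wt_pos t).le)
  have h5 := (setIntegral_eq_zero_iff_of_nonneg_ae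
    (Eventually.of_forall fun t => (wt_pos t).le) hwi.integrableOn).1 h4
  have h6 : ∀ᵐ t ∂(m.restrict Dᶜ), False := h5.mono fun t ht => (wt_pos t).ne' ht
  have h7 : m.restrict Dᶜ Set.univ = 0 := by
    have := ae_iff.1 h6
    simpa using this
  rwa [Measure.restrict_apply_univ] at h7

end Pool.Agent.H717.Z987
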