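import Pool.Agent.H717.Z987.WienA

/-! Part of `S_wien` (Z-F4-L3 of helper121): the convergence of the averages. -/

set_option autoImplicit false

open scoped BigOperators InnerProductSpace Topology ENNReal
open Filter MeasureTheory

namespace Pool.Agent.H717.Z987

open Pool.Agent.TH369.MU (ep zk)
open Pool.Agent.H121.Z987
open Pool.Agent.W883.LL (P P_nonneg P_le P_cauchy P_integral P_integrable P_cont)
open Pool.Agent.TH794.LL2 (Po Po_int Po_im)

theorem ep_pos' (k : ℕ) : 0 < ep k := Pool.Agent.TH369.MU.PO2.ep_pos k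

theorem ep_lim : Tendsto ep atTop (𝓝 0) :=
  Pool.Agent.TH369.MU.PO2.ep_tendsto.mono_right nhdsWithin_le_nhds

/-- the Borel transform of `μ` at `E + i ε` -/
noncomputable def Fm (μ : Measure ℝ) (ε E : ℝ) : ℂ := ∫ t, kp ε t E ∂μ

theorem kp_int (μ : Measure ℝ) [IsFiniteMeasure μ] (ε E : ℝ) (hε : 0 < ε) :
    Integrable (fun t => kp ε t E) μ :=
  Integrable.of_bound (kp_cont_t ε E hε).aestronglyMeasurable (1 / ε)
    (Eventually.of_forall fun t => kp_le ε t E hε)

theorem Fm_le (μ : Measure ℝ) [IsFiniteMeasure μ] (ε E : ℝ) (hε : 0 < ε) :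
    ‖Fm μ ε E‖ ≤ 1 / ε * μ.real Set.univ := by
  unfold Fm
  exact norm_integral_le_of_norm_le_const (Eventually.of_forall fun t => kp_le ε t E hε)

theorem Fm_meas (μ : Measure ℝ) [IsFiniteMeasure μ] (ε : ℝ) (hε : 0 < ε) :
    StronglyMeasurable fun E => Fm μ ε E := by
  unfold Fm
  have h : StronglyMeasurable fun p : ℝ × ℝ => kp ε p.2 p.1 :=
    ((kp_cont2 ε hε).comp (continuous_swap)).stronglyMeasurable
  exact h.integral_prod_right

/-- the averages of the products of two Borel transforms -/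
noncomputable def J (μ ν : Measure ℝ) (k : ℕ) : ℂ :=
  ∫ E, (ep k : ℂ) * (Fm μ (ep k) E * (starRingEnd ℂ) (Fm ν (ep k) E)) ∂Q

theorem J_eq (μ ν : Measure ℝ) [IsFiniteMeasure μ] [IsFiniteMeasure ν] (k : ℕ) :
    J μ ν k = ∫ p : ℝ × ℝ, ka (ep k) p.1 p.2 ∂(μ.prod ν) := by
  have hε := ep_pos' k
  obtain ⟨ε, he⟩ : ∃ ε, ε = ep k := ⟨_, rfl⟩
  unfold J
  rw [← he] at hε ⊢
  have h1 : ∀ E, (ε : ℂ) * (Fm μ ε E * (starRingEnd ℂ) (Fm ν ε E)) =
      ∫ p : ℝ × ℝ, (ε : ℂ) * (kp ε p.1 E * (starRingEnd ℂ) (kp ε p.2 E)) ∂(μ.prod ν) := by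
    intro E
    rw [integral_const_mul, integral_prod_mul (fun t => kp ε t E)
      (fun t => (starRingEnd ℂ) (kp ε t E)), integral_conj]
    rfl
  simp_rw [h1]
  rw [integral_integral_swap]
  · rfl
  · refine Integrable.of_bound (C := ε * (1 / ε * (1 / ε))) ?_ (Eventually.of_forall fun p => ?_)
    · refine Continuous.aestronglyMeasurable ?_
      have c1 : Continuous fun p : ℝ × ℝ × ℝ => kp ε p.2.1 p.1 :=
        (kp_cont2 ε hε).comp (by fun_prop : Continuous fun p : ℝ × ℝ × ℝ => (p.2.1, p.1))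
      have c2 : Continuous fun p : ℝ × ℝ × ℝ => kp ε p.2.2 p.1 :=
        (kp_cont2 ε hε).comp (by fun_prop : Continuous fun p : ℝ × ℝ × ℝ => (p.2.2, p.1))
      exact continuous_const.mul (c1.mul (Complex.continuous_conj.comp c2))
    · simp only [Function.uncurry]
      rw [norm_mul, norm_mul, RCLike.norm_conj, Complex.norm_real, Real.norm_of_nonneg hε.le]
      have h1 := kp_le ε p.2.1 p.1 hε
      have h2 := kp_le ε p.2.2 p.1 hε
      gcongr

theorem ka_meas (ε : ℝ) (hε : 0 < ε) : StronglyMeasurable fun p : ℝ × ℝ => ka ε p.1 p.2 := by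
  unfold ka
  have h : StronglyMeasurable fun p : (ℝ × ℝ) × ℝ =>
      (ε : ℂ) * (kp ε p.1.1 p.2 * (starRingEnd ℂ) (kp ε p.1.2 p.2)) := by
    refine Continuous.stronglyMeasurable ?_
    have c1 : Continuous fun p : (ℝ × ℝ) × ℝ => kp ε p.1.1 p.2 :=
      (kp_cont2 ε hε).comp (by fun_prop : Continuous fun p : (ℝ × ℝ) × ℝ => (p.1.1, p.2))
    have c2 : Continuous fun p : (ℝ × ℝ) × ℝ => kp ε p.1.2 p.2 :=
      (kp_cont2 ε hε).comp (by fun_prop : Continuous fun p : (ℝ × ℝ) × ℝ => (p.1.2, p.2))
    exact continuous_const.mul (c1.mul (Complex.continuous_conj.comp c2))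
  exact h.integral_prod_right

open Classical in
/-- the limit kernel -/
noncomputable def kl (t t' : ℝ) : ℂ := if t = t' then ((Real.pi * wt t : ℝ) : ℂ) else 0

theorem J_lim0 (μ ν : Measure ℝ) [IsFiniteMeasure μ] [IsFiniteMeasure ν] :
    Tendsto (J μ ν) atTop (𝓝 (∫ p : ℝ × ℝ, kl p.1 p.2 ∂(μ.prod ν))) := by
  have h : J μ ν = fun k => ∫ p : ℝ × ℝ, ka (ep k) p.1 p.2 ∂(μ.prod ν) := by
    funext k
    exact J_eq μ ν k
  rw [h]
  refine tendsto_integral_of_dominated_convergence (fun _ => Real.pi)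
    (fun k => (ka_meas (ep k) (ep_pos' k)).aestronglyMeasurable) (integrable_const _)
    (fun k => Eventually.of_forall fun p => ka_le _ _ _ (ep_pos' k))
    (Eventually.of_forall fun p => ?_)
  have := ka_lim p.1 p.2
  unfold kl
  convert this using 2

theorem kl_int (μ ν : Measure ℝ) [IsFiniteMeasure μ] [IsFiniteMeasure ν] :
    Integrable (fun p : ℝ × ℝ => kl p.1 p.2) (μ.prod ν) := by
  have hm : Measurable fun p : ℝ × ℝ => kl p.1 p.2 := by
    unfold kl
    refine Measurable.ite (measurableSet_eq_fun measurable_fst measurable_snd) ?_ measurable_const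
    exact Complex.measurable_ofReal.comp ((wt_cont.measurable.comp measurable_fst).const_mul _)
  refine Integrable.of_bound (C := Real.pi) hm.aestronglyMeasurable
    (Eventually.of_forall fun p => ?_)
  unfold kl
  split_ifs
  · rw [Complex.norm_real, Real.norm_of_nonneg (mul_nonneg Real.pi_pos.le (wt_pos _).le)]
    have := wt_le p.1
    nlinarith [Real.pi_pos]
  · simp [Real.pi_pos.le]

/-- the limit as a sum over the atoms -/
theorem kl_sum (μ ν : Measure ℝ) [IsFiniteMeasure μ] [IsFiniteMeasure ν] (D : Set ℝ)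
    (hD : D.Countable) (hν : ∀ t, t ∉ D → ν {t} = 0) :
    ∫ p : ℝ × ℝ, kl p.1 p.2 ∂(μ.prod ν) =
      ((Real.pi * ∑' t : D, wt t * (μ.real {(t : ℝ)} * ν.real {(t : ℝ)}) : ℝ) : ℂ) := by
  rw [integral_prod _ (kl_int μ ν)]
  have h1 : ∀ t : ℝ, ∫ t', kl t t' ∂ν = ((Real.pi * wt t * ν.real {t} : ℝ) : ℂ) := by
    intro t
    have : (fun t' => kl t t') = Set.indicator {t} (fun _ => ((Real.pi * wt t : ℝ) : ℂ)) := by
      funext t'
      unfold kl
      by_cases h : t = t'
      · subst h
        simp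
      · rw [if_neg h, Set.indicator_of_notMem]
        simpa using fun h' => h h'.symm
    rw [this, integral_indicator (measurableSet_singleton t), setIntegral_const]
    rw [Complex.real_smul]
    push_cast
    ring
  simp_rw [h1]
  rw [integral_complex_ofReal]
  congr 1
  have h2 : ∫ t, Real.pi * wt t * ν.real {t} ∂μ = ∫ t in D, Real.pi * wt t * ν.real {t} ∂μ := by
    rw [← integral_indicator hD.measurableSet]
    refine integral_congr_ae (Eventually.of_forall fun t => ?_)
    by_cases ht : t ∈ D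
    · rw [Set.indicator_of_mem ht]
    · rw [Set.indicator_of_notMem ht]
      simp only
      rw [measureReal_def, hν t ht]
      simp
  rw [h2]
  have hint : IntegrableOn (fun t => Real.pi * wt t * ν.real {t}) D μ := by
    have hi := (kl_int μ ν).integral_prod_left
    simp_rw [h1] at hi
    have hi2 : Integrable (fun t => Real.pi * wt t * ν.real {t}) μ := by
      have := hi.re
      simpa using this
    exact hi2.integrableOn
  rw [setIntegral_countable _ hD hint, ← tsum_mul_left]
  refine tsum_congr fun t => ?_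
  rw [smul_eq_mul]
  ring

theorem atoms_summable (μ ν : Measure ℝ) [IsFiniteMeasure μ] [IsFiniteMeasure ν] (D : Set ℝ)
    (hD : D.Countable) : Summable fun t : D => wt t * (μ.real {(t : ℝ)} * ν.real {(t : ℝ)}) := by
  haveI := hD.to_subtype
  have h1 : Summable fun t : D => μ.real {(t : ℝ)} := by
    have hs : (∑' t : D, μ {(t : ℝ)}) ≠ ∞ := by
      have := measure_iUnion (μ := μ) (f := fun t : D => {(t : ℝ)})
        (fun a b hab => by
          simp only [Function.onFun, Set.disjoint_singleton]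
          exact fun h => hab (Subtype.ext h)) (fun t => measurableSet_singleton _)
      rw [← this]
      exact measure_ne_top _ _
    exact ENNReal.summable_toReal hs
  refine Summable.of_nonneg_of_le (fun t => ?_) (fun t => ?_) (h1.mul_right (ν.real Set.univ))
  · exact mul_nonneg (wt_pos _).le (mul_nonneg measureReal_nonneg measureReal_nonneg)
  · have h2 := wt_le (t : ℝ)
    have h3 : ν.real {(t : ℝ)} ≤ ν.real Set.univ := measureReal_mono (Set.subset_univ _)
    have h4 : 0 ≤ μ.real {(t : ℝ)} := measureReal_nonneg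
    have h5 : 0 ≤ ν.real {(t : ℝ)} := measureReal_nonneg
    have h6 : 0 ≤ wt (t : ℝ) := (wt_pos _).le
    calc wt (t : ℝ) * (μ.real {(t : ℝ)} * ν.real {(t : ℝ)})
        ≤ 1 * (μ.real {(t : ℝ)} * ν.real Set.univ) := by gcongr
      _ = _ := one_mul _

theorem fin_atoms (μ : Measure ℝ) [IsFiniteMeasure μ] : {t : ℝ | μ {t} ≠ 0}.Countable := by
  have h := Measure.countable_meas_pos_of_disjoint_iUnion (μ := μ) (As := fun t : ℝ => {t})
    (fun t => measurableSet_singleton t) (fun a b hab => by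
      simp only [Function.onFun, Set.disjoint_singleton]
      exact hab)
  refine h.mono fun t ht => ?_
  exact pos_iff_ne_zero.2 ht

/-- the difference of two Borel transforms -/
theorem diff_lim (μ ν : Measure ℝ) [IsFiniteMeasure μ] [IsFiniteMeasure ν] (D : Set ℝ)
    (hD : D.Countable) (hμ : ∀ t, t ∉ D → μ {t} = 0) (hν : ∀ t, t ∉ D → ν {t} = 0) :
    Tendsto (fun k => ∫ E, ep k * ‖Fm μ (ep k) E - Fm ν (ep k) E‖ ^ 2 ∂Q) atTop
      (𝓝 (Real.pi * ∑' t : D, wt t * (μ.real {(t : ℝ)} - ν.real {(t : ℝ)}) ^ 2)) := by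
  have hI : ∀ (α β : Measure ℝ) [IsFiniteMeasure α] [IsFiniteMeasure β] (k : ℕ),
      Integrable (fun E => (ep k : ℂ) * (Fm α (ep k) E * (starRingEnd ℂ) (Fm β (ep k) E))) Q := by
    intro α β _ _ k
    have hε := ep_pos' k
    refine Integrable.of_bound (C := ep k * ((1 / ep k * α.real Set.univ) *
      (1 / ep k * β.real Set.univ))) ?_ (Eventually.of_forall fun E => ?_)
    · exact (stronglyMeasurable_const.mul ((Fm_meas α _ hε).mul
        (Complex.continuous_conj.comp_stronglyMeasurable (Fm_meas β _ hε)))).aestronglyMeasurable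
    · rw [norm_mul, norm_mul, RCLike.norm_conj, Complex.norm_real, Real.norm_of_nonneg hε.le]
      have h1 := Fm_le α (ep k) E hε
      have h2 := Fm_le β (ep k) E hε
      have h3 : (0 : ℝ) ≤ 1 / ep k * α.real Set.univ :=
        mul_nonneg (by positivity) measureReal_nonneg
      gcongr
  have h1 : ∀ k, ((∫ E, ep k * ‖Fm μ (ep k) E - Fm ν (ep k) E‖ ^ 2 ∂Q : ℝ) : ℂ) =
      J μ μ k - J μ ν k - J ν μ k + J ν ν k := by
    intro k
    rw [← integral_complex_ofReal]
    unfold J
    have g1 := integral_sub (hI μ μ k) (hI μ ν k)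
    have g2 := integral_sub ((hI μ μ k).sub (hI μ ν k)) (hI ν μ k)
    have g3 := integral_add (((hI μ μ k).sub (hI μ ν k)).sub (hI ν μ k)) (hI ν ν k)
    simp only [Pi.sub_apply, Pi.add_apply] at g1 g2 g3
    rw [← g1, ← g2, ← g3]
    refine integral_congr_ae (Eventually.of_forall fun E => ?_)
    simp only
    push_cast
    rw [← Complex.mul_conj', map_sub]
    ring
  have h2 : Tendsto (fun k => J μ μ k - J μ ν k - J ν μ k + J ν ν k) atTop
      (𝓝 (((Real.pi * ∑' t : D, wt t * (μ.real {(t : ℝ)} - ν.real {(t : ℝ)}) ^ 2 : ℝ) : ℂ))) := by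
    have e := (((J_lim0 μ μ).sub (J_lim0 μ ν)).sub (J_lim0 ν μ)).add (J_lim0 ν ν)
    rw [kl_sum μ μ D hD hμ, kl_sum μ ν D hD hν, kl_sum ν μ D hD hμ, kl_sum ν ν D hD hν] at e
    convert e using 2
    rw [← Complex.ofReal_sub, ← Complex.ofReal_sub, ← Complex.ofReal_add]
    congr 1
    rw [← mul_sub, ← mul_sub, ← mul_add]
    congr 1
    have s1 := atoms_summable μ μ D hD
    have s2 := atoms_summable μ ν D hD
    have s3 := atoms_summable ν μ D hD
    have s4 := atoms_summable ν ν D hD
    rw [← s1.tsum_sub s2, ← (s1.sub s2).tsum_sub s3, ← ((s1.sub s2).sub s3).tsum_add s4]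
    refine tsum_congr fun t => ?_
    ring
  have h3 : Tendsto (fun k => ((∫ E, ep k * ‖Fm μ (ep k) E - Fm ν (ep k) E‖ ^ 2 ∂Q : ℝ) : ℂ)) atTop
      (𝓝 (((Real.pi * ∑' t : D, wt t * (μ.real {(t : ℝ)} - ν.real {(t : ℝ)}) ^ 2 : ℝ) : ℂ))) := by
    simp_rw [h1]
    exact h2
  have h4 := (Complex.continuous_re.tendsto _).comp h3
  simpa [Function.comp_def] using h4

/-- the average of the Poisson integrals -/
theorem Po_Q (m : Measure ℝ) [IsFiniteMeasure m] :
    (∀ k, Integrable (fun E => Po m E (ep k)) Q) ∧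
    Tendsto (fun k => ∫ E, Po m E (ep k) ∂Q) atTop (𝓝 (∫ t, Real.pi * wt t ∂m)) := by
  have hP : ∀ E ε, Po m E ε = ∫ t, P t ε E ∂m := by
    intro E ε
    unfold Po P
    refine integral_congr_ae (Eventually.of_forall fun t => ?_)
    simp only
    congr 2
    ring
  have hc : ∀ k, Continuous fun p : ℝ × ℝ => P p.2 (ep k) p.1 := by
    intro k
    have := ep_pos' k
    unfold P
    refine Continuous.div continuous_const (by fun_prop) fun p => ?_
    positivity
  have hprod : ∀ k, Integrable (fun p : ℝ × ℝ => P p.2 (ep k) p.1) (Q.prod m) := by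
    intro k
    refine Integrable.of_bound (C := 1 / ep k) (hc k).aestronglyMeasurable
      (Eventually.of_forall fun p => ?_)
    rw [Real.norm_of_nonneg (P_nonneg _ _ _ (ep_pos' k))]
    exact P_le _ _ _ (ep_pos' k)
  constructor
  · intro k
    simp_rw [hP]
    exact (hprod k).integral_prod_left
  · have h1 : ∀ k, ∫ E, Po m E (ep k) ∂Q =
        ∫ t, Real.pi * ((1 + ep k) / (t ^ 2 + (1 + ep k) ^ 2)) ∂m := by
      intro k
      simp_rw [hP]
      rw [integral_integral_swap (hprod k)]
      refine integral_congr_ae (Eventually.of_forall fun t => ?_)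
      exact P_Q t (ep k) (ep_pos' k)
    simp_rw [h1]
    refine tendsto_integral_of_dominated_convergence (fun _ => Real.pi) (fun k => ?_)
      (integrable_const _) (fun k => Eventually.of_forall fun t => ?_)
      (Eventually.of_forall fun t => ?_)
    · have := ep_pos' k
      refine Continuous.aestronglyMeasurable ?_
      refine continuous_const.mul (Continuous.div continuous_const (by fun_prop) fun t => ?_)
      positivity
    · have := ep_pos' k
      rw [Real.norm_of_nonneg (by have := Real.pi_pos; positivity)]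
      have h2 : (1 + ep k) / (t ^ 2 + (1 + ep k) ^ 2) ≤ 1 := by
        rw [div_le_one (by positivity)]
        nlinarith [sq_nonneg t]
      nlinarith [Real.pi_pos]
    · refine Tendsto.const_mul _ ?_
      have h1 : wt t = (1 + 0) / (t ^ 2 + (1 + 0) ^ 2) := by
        unfold wt
        congr 1 <;> ring
      rw [h1]
      refine Tendsto.div (ep_lim.const_add 1) (((ep_lim.const_add 1).pow 2).const_add _) ?_
      positivity

/-- point masses from the Borel transform -/
theorem Fm_atom (μ : Measure ℝ) [IsFiniteMeasure μ] (t0 : ℝ) :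
    Tendsto (fun k => -(Complex.I * (ep k : ℂ)) * Fm μ (ep k) t0) atTop
      (𝓝 ((μ.real {t0} : ℝ) : ℂ)) := by
  have h1 : ∀ k, -(Complex.I * (ep k : ℂ)) * Fm μ (ep k) t0 =
      ∫ t, -(Complex.I * (ep k : ℂ)) * kp (ep k) t t0 ∂μ := by
    intro k
    rw [integral_const_mul]
    rfl
  have h2 : ((μ.real {t0} : ℝ) : ℂ) = ∫ t, Set.indicator {t0} (fun _ => (1 : ℂ)) t ∂μ := by
    rw [integral_indicator (measurableSet_singleton t0), setIntegral_const]
    simp
  simp_rw [h1]
  rw [h2]
  refine tendsto_integral_of_dominated_convergence (fun _ => 1) (fun k => ?_)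
    (integrable_const _) (fun k => Eventually.of_forall fun t => ?_)
    (Eventually.of_forall fun t => ?_)
  · exact (continuous_const.mul (kp_cont_t (ep k) t0 (ep_pos' k))).aestronglyMeasurable
  · rw [norm_mul, norm_neg, norm_mul, Complex.norm_I, one_mul, Complex.norm_real,
      Real.norm_of_nonneg (ep_pos' k).le]
    have h3 := kp_le (ep k) t t0 (ep_pos' k)
    have h4 := ep_pos' k
    calc ep k * ‖kp (ep k) t t0‖ ≤ ep k * (1 / ep k) := by gcongr
      _ = 1 := by field_simp
  · by_cases ht : t = t0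
    · subst ht
      have h3 : ∀ k, -(Complex.I * (ep k : ℂ)) * kp (ep k) t t = 1 := by
        intro k
        have h4 : (ep k : ℂ) ≠ 0 := by exact_mod_cast (ep_pos' k).ne'
        unfold kp
        have h5 : (t : ℂ) - ((t : ℂ) + (ep k : ℂ) * Complex.I) = -(Complex.I * (ep k : ℂ)) := by ring
        rw [h5]
        refine mul_inv_cancel₀ ?_
        simp [h4]
      simp_rw [h3]
      simp
    · rw [Set.indicator_of_notMem (by simpa using ht)]
      have h3 : Tendsto (fun k => -(Complex.I * (ep k : ℂ)) * kp (ep k) t t0) atTop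
          (𝓝 (-(Complex.I * ((0 : ℝ) : ℂ)) * ((t : ℂ) - ((t0 : ℂ) + ((0 : ℝ) : ℂ) * Complex.I))⁻¹)) := by
        unfold kp
        have h4 : Tendsto (fun k => (ep k : ℂ)) atTop (𝓝 ((0 : ℝ) : ℂ)) :=
          (Complex.continuous_ofReal.tendsto _).comp ep_lim
        refine Tendsto.mul (h4.const_mul _).neg (Tendsto.inv₀ (((h4.mul_const _).const_add _).const_sub _) ?_)
        simp
        rw [sub_eq_zero]
        exact_mod_cast ht
      simpa using h3

end Pool.Agent.H717.Z987
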