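import Pool.Agent.H121.Z987.Iface

/-! Part of `S_wien` (Z-F4-L3 of helper121): the kernels. -/

set_option autoImplicit false

open scoped BigOperators InnerProductSpace Topology ENNReal
open Filter MeasureTheory

namespace Pool.Agent.H717.Z987

open Pool.Agent.TH369.MU (ep zk)
open Pool.Agent.H121.Z987
open Pool.Agent.W883.LL (P P_nonneg P_le P_cauchy P_integral P_integrable P_cont)

/-! ### the measure `Q` -/

theorem wt_pos (E : ℝ) : 0 < wt E := by unfold wt; positivity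

theorem wt_le (E : ℝ) : wt E ≤ 1 := by
  unfold wt
  rw [div_le_one (by positivity)]
  nlinarith [sq_nonneg E]

theorem wt_cont : Continuous wt := by
  unfold wt
  refine Continuous.div continuous_const (by fun_prop) fun E => ?_
  positivity

theorem wt_integrable : Integrable wt volume := by
  have h := integrable_inv_one_add_sq
  refine h.congr (Eventually.of_forall fun E => ?_)
  simp [wt]

theorem wt_integral : ∫ E, wt E = Real.pi := by
  have h := integral_univ_inv_one_add_sq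
  rw [← h]
  refine integral_congr_ae (Eventually.of_forall fun E => ?_)
  simp [wt]

theorem Q_univ : Q Set.univ = ENNReal.ofReal Real.pi := by
  unfold Q
  rw [withDensity_apply _ MeasurableSet.univ, Measure.restrict_univ,
    ← ofReal_integral_eq_lintegral_ofReal wt_integrable
      (Eventually.of_forall fun E => (wt_pos E).le), wt_integral]

instance : IsFiniteMeasure Q := ⟨by rw [Q_univ]; exact ENNReal.ofReal_lt_top⟩

theorem Q_real : Q.real Set.univ = Real.pi := by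
  rw [measureReal_def, Q_univ, ENNReal.toReal_ofReal Real.pi_pos.le]

theorem Q_int {F : Type} [NormedAddCommGroup F] [NormedSpace ℝ F] (f : ℝ → F) :
    ∫ E, f E ∂Q = ∫ E, wt E • f E := by
  unfold Q
  rw [integral_withDensity_eq_integral_toReal_smul
    (wt_cont.measurable.ennreal_ofReal) (Eventually.of_forall fun _ => ENNReal.ofReal_lt_top)]
  refine integral_congr_ae (Eventually.of_forall fun E => ?_)
  simp only
  rw [ENNReal.toReal_ofReal (wt_pos _).le]

theorem P_Q (t ε : ℝ) (hε : 0 < ε) :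
    ∫ E, P t ε E ∂Q = Real.pi * ((1 + ε) / (t ^ 2 + (1 + ε) ^ 2)) := by
  obtain ⟨i1, h1⟩ := P_cauchy t ε hε Complex.I (by simp)
  have h2 : ∀ E : ℝ, ((P t ε E : ℂ) / ((E : ℂ) - Complex.I)).im = wt E • P t ε E := by
    intro E
    rw [div_eq_mul_inv, Complex.im_ofReal_mul, Complex.inv_im, Complex.normSq_apply]
    unfold wt
    simp
    ring
  rw [Q_int]
  have h4 := congrArg Complex.im h1
  have h5 : (∫ E : ℝ, (P t ε E : ℂ) / ((E : ℂ) - Complex.I)).im =
      ∫ E : ℝ, ((P t ε E : ℂ) / ((E : ℂ) - Complex.I)).im := (integral_im i1).symm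
  rw [h5] at h4
  simp_rw [h2] at h4
  rw [h4, div_eq_mul_inv, Complex.im_ofReal_mul, Complex.inv_im, Complex.normSq_apply]
  simp
  congr 1
  ring

theorem P_meas (t ε : ℝ) (hε : 0 < ε) : Measurable fun E => P t ε E := (P_cont t ε hε).measurable

theorem P_intQ (t ε : ℝ) (hε : 0 < ε) : Integrable (fun E => P t ε E) Q := by
  refine Integrable.of_bound (C := 1 / ε) (P_meas t ε hε).aestronglyMeasurable
    (Eventually.of_forall fun E => ?_)
  rw [Real.norm_of_nonneg (P_nonneg t ε E hε)]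
  exact P_le t ε E hε

theorem P_Q_le (t ε : ℝ) (hε : 0 < ε) : ∫ E, P t ε E ∂Q ≤ Real.pi := by
  rw [P_Q t ε hε]
  have : (1 + ε) / (t ^ 2 + (1 + ε) ^ 2) ≤ 1 := by
    rw [div_le_one (by positivity)]
    nlinarith [sq_nonneg t]
  nlinarith [Real.pi_pos]

/-! ### the kernel -/

/-- `1 / (t - z)`, `z = E + i ε` -/
noncomputable def kp (ε t E : ℝ) : ℂ := ((t : ℂ) - ((E : ℂ) + (ε : ℂ) * Complex.I))⁻¹

theorem kp_ne (ε t E : ℝ) (hε : 0 < ε) : (t : ℂ) - ((E : ℂ) + (ε : ℂ) * Complex.I) ≠ 0 := by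
  intro h
  have := congrArg Complex.im h
  simp at this
  exact hε.ne' this

theorem kp_cont2 (ε : ℝ) (hε : 0 < ε) : Continuous fun p : ℝ × ℝ => kp ε p.1 p.2 := by
  unfold kp
  refine Continuous.inv₀ (by fun_prop) fun p => kp_ne ε _ _ hε

theorem kp_cont_E (ε t : ℝ) (hε : 0 < ε) : Continuous fun E => kp ε t E := by
  unfold kp
  refine Continuous.inv₀ (by fun_prop) fun p => kp_ne ε _ _ hε

theorem kp_cont_t (ε E : ℝ) (hε : 0 < ε) : Continuous fun t => kp ε t E := by
  unfold kp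
  refine Continuous.inv₀ (by fun_prop) fun p => kp_ne ε _ _ hε

theorem kp_sq (ε t E : ℝ) (hε : 0 < ε) : ε * ‖kp ε t E‖ ^ 2 = P t ε E := by
  unfold kp P
  rw [norm_inv, inv_pow, Complex.sq_norm, Complex.normSq_apply]
  simp
  rw [← div_eq_mul_inv]
  congr 1
  ring

theorem kp_le (ε t E : ℝ) (hε : 0 < ε) : ‖kp ε t E‖ ≤ 1 / ε := by
  unfold kp
  rw [norm_inv, one_div]
  refine inv_anti₀ hε ?_
  refine le_trans ?_ (Complex.abs_im_le_norm _)
  simp
  exact le_abs_self ε

/-- the kernel `κ` -/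
noncomputable def ka (ε t t' : ℝ) : ℂ :=
  ∫ E, (ε : ℂ) * (kp ε t E * (starRingEnd ℂ) (kp ε t' E)) ∂Q

theorem ka_aux (ε t t' E : ℝ) (hε : 0 < ε) :
    ‖(ε : ℂ) * (kp ε t E * (starRingEnd ℂ) (kp ε t' E))‖ ≤ (P t ε E + P t' ε E) / 2 := by
  rw [norm_mul, norm_mul, RCLike.norm_conj, Complex.norm_real, Real.norm_of_nonneg hε.le,
    ← kp_sq ε t E hε, ← kp_sq ε t' E hε]
  nlinarith [mul_nonneg hε.le (sq_nonneg (‖kp ε t E‖ - ‖kp ε t' E‖))]

theorem ka_int (ε t t' : ℝ) (hε : 0 < ε) :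
    Integrable (fun E => (ε : ℂ) * (kp ε t E * (starRingEnd ℂ) (kp ε t' E))) Q := by
  refine Integrable.of_bound (C := ε * (1 / ε * (1 / ε))) ?_ (Eventually.of_forall fun E => ?_)
  · exact (Continuous.mul continuous_const ((kp_cont_E ε t hε).mul
      (Complex.continuous_conj.comp (kp_cont_E ε t' hε)))).aestronglyMeasurable
  · rw [norm_mul, norm_mul, RCLike.norm_conj, Complex.norm_real, Real.norm_of_nonneg hε.le]
    have h1 := kp_le ε t E hε
    have h2 := kp_le ε t' E hε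
    gcongr

theorem ka_le (ε t t' : ℝ) (hε : 0 < ε) : ‖ka ε t t'‖ ≤ Real.pi := by
  unfold ka
  refine (norm_integral_le_integral_norm _).trans ?_
  calc ∫ E, ‖(ε : ℂ) * (kp ε t E * (starRingEnd ℂ) (kp ε t' E))‖ ∂Q
      ≤ ∫ E, (P t ε E + P t' ε E) / 2 ∂Q := by
        refine integral_mono (ka_int ε t t' hε).norm
          (((P_intQ t ε hε).add (P_intQ t' ε hε)).div_const 2) fun E => ka_aux ε t t' E hε
    _ = ((∫ E, P t ε E ∂Q) + ∫ E, P t' ε E ∂Q) / 2 := by
        rw [integral_div, integral_add (P_intQ t ε hε) (P_intQ t' ε hε)]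
    _ ≤ Real.pi := by
        have h1 := P_Q_le t ε hε
        have h2 := P_Q_le t' ε hε
        linarith

theorem ka_diag (ε t : ℝ) (hε : 0 < ε) :
    ka ε t t = ((Real.pi * ((1 + ε) / (t ^ 2 + (1 + ε) ^ 2)) : ℝ) : ℂ) := by
  rw [← P_Q t ε hε, ← integral_complex_ofReal]
  unfold ka
  refine integral_congr_ae (Eventually.of_forall fun E => ?_)
  simp only
  rw [← kp_sq ε t E hε, Complex.mul_conj']
  push_cast
  ring

theorem ka_off (ε t t' : ℝ) (hε : 0 < ε) (h : t ≠ t') :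
    ‖ka ε t t'‖ ≤ 2 * Real.pi * Real.sqrt ε / |t - t'| := by
  have hd : 0 < |t - t'| := abs_pos.2 (sub_ne_zero.2 h)
  have hs : 0 < Real.sqrt ε := Real.sqrt_pos.2 hε
  have hss : Real.sqrt ε * Real.sqrt ε = ε := Real.mul_self_sqrt hε.le
  -- `ε |t - z|⁻¹ ≤ √ε (P + 1) / 2`
  have h1 : ∀ s E : ℝ, ε * ‖kp ε s E‖ ≤ Real.sqrt ε * ((P s ε E + 1) / 2) := by
    intro s E
    have e1 := kp_sq ε s E hε
    obtain ⟨u, hu⟩ : ∃ u, u = ‖kp ε s E‖ := ⟨_, rfl⟩
    rw [← hu] at e1 ⊢
    rw [← e1]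
    have e2 : ε * u = Real.sqrt ε * (Real.sqrt ε * u) := by rw [← mul_assoc, hss]
    rw [e2]
    refine mul_le_mul_of_nonneg_left ?_ hs.le
    have e3 : ε * u ^ 2 = (Real.sqrt ε * u) ^ 2 := by rw [mul_pow, sq (Real.sqrt ε), hss]
    rw [e3]
    nlinarith [sq_nonneg (Real.sqrt ε * u - 1)]
  have h2 : ∀ E : ℝ, ‖(ε : ℂ) * (kp ε t E * (starRingEnd ℂ) (kp ε t' E))‖ ≤
      |t - t'|⁻¹ * (Real.sqrt ε * ((P t ε E + 1) / 2) + Real.sqrt ε * ((P t' ε E + 1) / 2)) := by
    intro E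
    have hk1 := kp_ne ε t E hε
    have hk2 := kp_ne ε t' E hε
    have e1 : ((t - t' : ℝ) : ℂ) * (kp ε t E * kp ε t' E) = kp ε t' E - kp ε t E := by
      unfold kp
      push_cast
      field_simp
      ring
    have e2 : |t - t'| * (‖kp ε t E‖ * ‖kp ε t' E‖) ≤ ‖kp ε t E‖ + ‖kp ε t' E‖ := by
      have := congrArg norm e1
      rw [norm_mul, norm_mul, Complex.norm_real, Real.norm_eq_abs] at this
      rw [this, add_comm]
      exact norm_sub_le _ _
    rw [norm_mul, norm_mul, RCLike.norm_conj, Complex.norm_real, Real.norm_of_nonneg hε.le]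
    rw [inv_mul_eq_div, le_div_iff₀ hd]
    calc ε * (‖kp ε t E‖ * ‖kp ε t' E‖) * |t - t'|
        = ε * (|t - t'| * (‖kp ε t E‖ * ‖kp ε t' E‖)) := by ring
      _ ≤ ε * (‖kp ε t E‖ + ‖kp ε t' E‖) := mul_le_mul_of_nonneg_left e2 hε.le
      _ = ε * ‖kp ε t E‖ + ε * ‖kp ε t' E‖ := by ring
      _ ≤ _ := add_le_add (h1 t E) (h1 t' E)
  unfold ka
  refine (norm_integral_le_integral_norm _).trans ?_
  have i1 : ∀ s : ℝ, Integrable (fun E => Real.sqrt ε * ((P s ε E + 1) / 2)) Q := fun s =>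
    (((P_intQ s ε hε).add (integrable_const _)).div_const 2).const_mul _
  have e3 : ∀ s : ℝ, ∫ E, Real.sqrt ε * ((P s ε E + 1) / 2) ∂Q ≤ Real.sqrt ε * Real.pi := by
    intro s
    rw [integral_const_mul, integral_div, integral_add (P_intQ s ε hε) (integrable_const _),
      integral_const, smul_eq_mul, mul_one, Q_real]
    have := P_Q_le s ε hε
    refine mul_le_mul_of_nonneg_left ?_ hs.le
    linarith
  calc ∫ E, ‖(ε : ℂ) * (kp ε t E * (starRingEnd ℂ) (kp ε t' E))‖ ∂Q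
      ≤ ∫ E, |t - t'|⁻¹ * (Real.sqrt ε * ((P t ε E + 1) / 2) +
          Real.sqrt ε * ((P t' ε E + 1) / 2)) ∂Q :=
        integral_mono (ka_int ε t t' hε).norm (((i1 t).add (i1 t')).const_mul _) h2
    _ = |t - t'|⁻¹ * ((∫ E, Real.sqrt ε * ((P t ε E + 1) / 2) ∂Q) +
          ∫ E, Real.sqrt ε * ((P t' ε E + 1) / 2) ∂Q) := by
        rw [integral_const_mul, integral_add (i1 t) (i1 t')]
    _ ≤ |t - t'|⁻¹ * (Real.sqrt ε * Real.pi + Real.sqrt ε * Real.pi) := by
        refine mul_le_mul_of_nonneg_left (add_le_add (e3 t) (e3 t')) (inv_nonneg.2 hd.le)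
    _ = 2 * Real.pi * Real.sqrt ε / |t - t'| := by ring

open Classical in
theorem ka_lim (t t' : ℝ) :
    Tendsto (fun k => ka (ep k) t t') atTop (𝓝 (if t = t' then ((Real.pi * wt t : ℝ) : ℂ) else 0)) := by
  have hep := Pool.Agent.TH369.MU.PO2.ep_tendsto.mono_right nhdsWithin_le_nhds
  have hpos := Pool.Agent.TH369.MU.PO2.ep_pos
  by_cases h : t = t'
  · subst h
    rw [if_pos rfl]
    simp_rw [fun k => ka_diag (ep k) t (hpos k)]
    refine (Complex.continuous_ofReal.tendsto _).comp ?_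
    refine Tendsto.const_mul _ ?_
    have h1 : wt t = (1 + 0) / (t ^ 2 + (1 + 0) ^ 2) := by
      unfold wt
      congr 1 <;> ring
    rw [h1]
    refine Tendsto.div (hep.const_add 1) (((hep.const_add 1).pow 2).const_add _) ?_
    positivity
  · rw [if_neg h]
    rw [tendsto_zero_iff_norm_tendsto_zero]
    have h2 : Tendsto (fun k => 2 * Real.pi * Real.sqrt (ep k) / |t - t'|) atTop (𝓝 0) := by
      have : Tendsto (fun k => 2 * Real.pi * Real.sqrt (ep k) / |t - t'|) atTop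
          (𝓝 (2 * Real.pi * Real.sqrt 0 / |t - t'|)) :=
        ((((Real.continuous_sqrt.tendsto 0).comp hep).const_mul _).div_const _)
      simpa using this
    exact squeeze_zero (fun k => norm_nonneg _) (fun k => ka_off (ep k) t t' (hpos k) h) h2

end Pool.Agent.H717.Z987
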